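import Pool.Agent.LibSOA.Exist

/-! MP_51f008_lc: a `Π¹₁`-sound, `Π¹₁`-definable extension of `Σ¹₁-AC₀` that proves its own
`Π¹₁` soundness.  The definitions are in `Pool.Agent.LibSOA.Basic`. -/

namespace Pool.Agent.Results.MP_51f008_lc.SelfSound

open Pool.Agent.LibSOA

/-- Arithmetisations of provability and of `Π¹₁` truth exist, and for every one of them there is
a theory `T` (an extension of `Σ¹₁-AC₀` by one true sentence) that is `Π¹₁`-sound, is defined by a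
`Π¹₁` formula `τ(x)`, and proves `∀ φ ∈ Π¹₁ (Pr_τ(φ) → True(φ))`. -/
theorem result :
    Nonempty Arithmetization ∧
    ∀ A : Arithmetization, ∃ T : Set Fm,
      SigmaAC0 ⊆ T ∧ (∃ ρ : Fm, T = insert ρ SigmaAC0) ∧
      (∀ φ ∈ T, φ.IsSentence ∧ φ.IsTrue) ∧
      (∀ φ : Fm, φ.IsSentence → φ.IsPi11 → Proves T φ → φ.IsTrue) ∧
      ∃ τ : Fm, τ.IsPi11 ∧ τ.Closed 1 0 ∧ (∀ n : ℕ, τ.Holds1 n ↔ ∃ ψ ∈ T, n = ψ.code) ∧
        Proves T (A.RFN τ) := by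
  refine ⟨exists_arithmetization, fun A => ?_⟩
  obtain ⟨α, ⟨h1, h2⟩, h3⟩ := exists_sigmaAC0_formula
  obtain ⟨ρ, hT, τ, h4, h5, h6, h7⟩ := A.exists_theory SigmaAC0
    (fun φ hφ => ⟨hφ.1, sigmaAC0_true hφ _ _⟩) α h1 h2 h3
  refine ⟨insert ρ SigmaAC0, Set.subset_insert _ _, ⟨ρ, rfl⟩, hT, ?_, τ, h4, h5, h6, h7⟩
  rintro φ - - ⟨Γ, hΓ, h⟩
  exact h.sound _ _ fun ψ hψ => (hT ψ (hΓ ψ hψ)).2

end Pool.Agent.Results.MP_51f008_lc.SelfSound
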